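import Pool.Agent.Helper70.MM.Goals3

/-!
Project MM: packet SCX (single crossing).
-/

open MeasureTheory Set Metric
open scoped ENNReal RealInnerProductSpace Topology
open Pool.Agent.Results.MP_91ee6f_gt
open Pool.Agent.Helper70.MM

namespace Pool.Agent.Helper87.MM

/-- strict quasiconvexity -/
theorem qc {f f' : ℝ → ℝ} {a : ℝ} (hf : ∀ x, a ≤ x → HasDerivAt f (f' x) x)
    (hP : ∀ x y, a ≤ x → x < y → 0 ≤ f' x → 0 < f' y) {p q r : ℝ} (hp : a ≤ p) (hpq : p < q)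
    (hqr : q < r) : f q < max (f p) (f r) := by
  by_cases h : 0 ≤ f' q
  · have h1 : StrictMonoOn f (Icc q r) := by
      apply strictMonoOn_of_deriv_pos (convex_Icc q r)
      · intro x hx
        exact (hf x (by linarith [hx.1])).continuousAt.continuousWithinAt
      · intro x hx
        rw [interior_Icc] at hx
        rw [(hf x (by linarith [hx.1])).deriv]
        exact hP q x (by linarith) hx.1 h
    exact lt_max_of_lt_right (h1 (left_mem_Icc.2 hqr.le) (right_mem_Icc.2 hqr.le) hqr)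
  · have h1 : StrictAntiOn f (Icc p q) := by
      apply strictAntiOn_of_deriv_neg (convex_Icc p q)
      · intro x hx
        exact (hf x (by linarith [hx.1])).continuousAt.continuousWithinAt
      · intro x hx
        rw [interior_Icc] at hx
        rw [(hf x (by linarith [hx.1])).deriv]
        by_contra hcon
        have h2 := hP x q (by linarith [hx.1]) hx.2 (not_lt.1 hcon)
        exact h h2.le
    exact lt_max_of_lt_left (h1 (left_mem_Icc.2 hpq.le) (right_mem_Icc.2 hpq.le) hpq)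

/-- the exponential sum -/
noncomputable def F (ℓ c t lam : ℝ) : ℝ :=
  1 + Real.exp (-(lam * ℓ ^ 2)) - c * (Real.exp (-(lam * t ^ 2)) + Real.exp (-(lam * (ℓ - t) ^ 2)))

/-- its derivative -/
noncomputable def F' (ℓ c t lam : ℝ) : ℝ :=
  Real.exp (-(lam * ℓ ^ 2)) * (-ℓ ^ 2 + c * (t ^ 2 * Real.exp (lam * (ℓ ^ 2 - t ^ 2)) +
    (ℓ - t) ^ 2 * Real.exp (lam * (ℓ ^ 2 - (ℓ - t) ^ 2))))

theorem hasDeriv_exp (k x : ℝ) :
    HasDerivAt (fun lam : ℝ => Real.exp (-(lam * k))) (-k * Real.exp (-(x * k))) x := by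
  have h : HasDerivAt (fun lam : ℝ => -(lam * k)) (-k) x := by
    exact (((hasDerivAt_id' x).mul_const k).fun_neg).congr_deriv (by simp)
  have := h.exp
  rw [mul_comm] at this
  exact this

theorem hasDeriv_F (ℓ c t x : ℝ) : HasDerivAt (F ℓ c t) (F' ℓ c t x) x := by
  have h1 := hasDeriv_exp (ℓ ^ 2) x
  have h2 := hasDeriv_exp (t ^ 2) x
  have h3 := hasDeriv_exp ((ℓ - t) ^ 2) x
  have h4 := ((h1.const_add 1).sub ((h2.add h3).const_mul c))
  have e : F' ℓ c t x = -ℓ ^ 2 * Real.exp (-(x * ℓ ^ 2)) -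
      c * (-t ^ 2 * Real.exp (-(x * t ^ 2)) + -(ℓ - t) ^ 2 * Real.exp (-(x * (ℓ - t) ^ 2))) := by
    unfold F'
    have e1 : Real.exp (-(x * t ^ 2)) =
        Real.exp (-(x * ℓ ^ 2)) * Real.exp (x * (ℓ ^ 2 - t ^ 2)) := by
      rw [← Real.exp_add]; congr 1; ring
    have e2 : Real.exp (-(x * (ℓ - t) ^ 2)) =
        Real.exp (-(x * ℓ ^ 2)) * Real.exp (x * (ℓ ^ 2 - (ℓ - t) ^ 2)) := by
      rw [← Real.exp_add]; congr 1; ring
    rw [e1, e2]
    ring
  rw [e]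
  exact h4

theorem F'_mono {ℓ c t : ℝ} (hc : 0 < c) (ht : 0 < t) (htl : t ≤ ℓ / 2) (x y : ℝ)
    (hxy : x < y) (h : 0 ≤ F' ℓ c t x) : 0 < F' ℓ c t y := by
  unfold F' at h ⊢
  have h1 : 0 < Real.exp (-(x * ℓ ^ 2)) := Real.exp_pos _
  have h2 := nonneg_of_mul_nonneg_right h h1
  apply mul_pos (Real.exp_pos _)
  have a1 : 0 < ℓ ^ 2 - t ^ 2 := by nlinarith
  have a2 : 0 ≤ ℓ ^ 2 - (ℓ - t) ^ 2 := by nlinarith
  have b1 : Real.exp (x * (ℓ ^ 2 - t ^ 2)) < Real.exp (y * (ℓ ^ 2 - t ^ 2)) :=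
    Real.exp_lt_exp.2 (mul_lt_mul_of_pos_right hxy a1)
  have b2 : Real.exp (x * (ℓ ^ 2 - (ℓ - t) ^ 2)) ≤ Real.exp (y * (ℓ ^ 2 - (ℓ - t) ^ 2)) :=
    Real.exp_le_exp.2 (mul_le_mul_of_nonneg_right hxy.le a2)
  have c1 : t ^ 2 * Real.exp (x * (ℓ ^ 2 - t ^ 2)) < t ^ 2 * Real.exp (y * (ℓ ^ 2 - t ^ 2)) :=
    mul_lt_mul_of_pos_left b1 (by positivity)
  have c2 : (ℓ - t) ^ 2 * Real.exp (x * (ℓ ^ 2 - (ℓ - t) ^ 2)) ≤
      (ℓ - t) ^ 2 * Real.exp (y * (ℓ ^ 2 - (ℓ - t) ^ 2)) :=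
    mul_le_mul_of_nonneg_left b2 (by positivity)
  have c3 : c * (t ^ 2 * Real.exp (x * (ℓ ^ 2 - t ^ 2)) +
      (ℓ - t) ^ 2 * Real.exp (x * (ℓ ^ 2 - (ℓ - t) ^ 2))) <
      c * (t ^ 2 * Real.exp (y * (ℓ ^ 2 - t ^ 2)) +
      (ℓ - t) ^ 2 * Real.exp (y * (ℓ ^ 2 - (ℓ - t) ^ 2))) :=
    mul_lt_mul_of_pos_left (by linarith) hc
  linarith

theorem F_qc {ℓ c t : ℝ} (hc : 0 < c) (ht : 0 < t) (htl : t ≤ ℓ / 2) {q r : ℝ}
    (hq : 0 < q) (hqr : q < r) : F ℓ c t q < max (F ℓ c t 0) (F ℓ c t r) :=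
  qc (f := F ℓ c t) (f' := F' ℓ c t) (a := 0) (fun x _ => hasDeriv_F ℓ c t x)
    (fun x y _ hxy h => F'_mono hc ht htl x y hxy h) le_rfl hq hqr

/-- sign pattern of `F` -/
theorem F_sign {ℓ c t L : ℝ} (hc : 1 ≤ c) (ht : 0 < t) (htl : t ≤ ℓ / 2) (hL : 0 < L)
    (h0 : F ℓ c t L = 0) :
    (∀ lam, 0 ≤ lam → lam ≤ L → F ℓ c t lam ≤ 0) ∧ ∀ lam, L ≤ lam → 0 ≤ F ℓ c t lam := by
  have hF0 : F ℓ c t 0 ≤ 0 := by
    unfold F
    simp
    linarith
  constructor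
  · intro lam h1 h2
    rcases h1.eq_or_lt with h | h
    · rw [← h]; exact hF0
    rcases h2.eq_or_lt with h' | h'
    · rw [h', h0]
    have := F_qc (by linarith : (0:ℝ) < c) ht htl h h'
    rw [h0] at this
    exact this.le.trans (max_le hF0 le_rfl)
  · intro lam h1
    rcases h1.eq_or_lt with h | h
    · rw [← h, h0]
    have := F_qc (by linarith : (0:ℝ) < c) ht htl hL h
    rw [h0] at this
    by_contra hcon
    have h3 := max_le hF0 (not_le.1 hcon).le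
    linarith

/-- existence of the crossing -/
theorem exists_L {ℓ s : ℝ} (hs : 0 < s) (hsl : s ≤ ℓ / 2) : ∃ L, 0 < L ∧ F ℓ 1 s L = 0 := by
  have hF0 : F ℓ 1 s 0 = 0 := by
    unfold F
    norm_num
  have hF'0 : F' ℓ 1 s 0 < 0 := by
    unfold F'
    simp
    nlinarith
  have hcont : Continuous (F' ℓ 1 s) := by
    unfold F'
    fun_prop
  have h1 : ∀ᶠ x in 𝓝 (0 : ℝ), F' ℓ 1 s x < 0 := hcont.continuousAt.eventually (gt_mem_nhds hF'0)
  obtain ⟨ε, hε, hb⟩ := Metric.eventually_nhds_iff.1 h1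
  have h2 : F ℓ 1 s (ε / 2) < 0 := by
    have h3 : StrictAntiOn (F ℓ 1 s) (Icc 0 (ε / 2)) := by
      apply strictAntiOn_of_deriv_neg (convex_Icc _ _)
      · intro x _
        exact (hasDeriv_F ℓ 1 s x).continuousAt.continuousWithinAt
      · intro x hx
        rw [interior_Icc] at hx
        rw [(hasDeriv_F ℓ 1 s x).deriv]
        apply hb
        rw [Real.dist_eq, sub_zero, abs_of_pos hx.1]
        linarith [hx.2]
    rw [← hF0]
    exact h3 (left_mem_Icc.2 (by linarith)) (right_mem_Icc.2 (by linarith)) (by linarith)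
  have h4 : 0 < F ℓ 1 s (2 / s ^ 2) := by
    have e1 : 2 / s ^ 2 * s ^ 2 = 2 := by field_simp
    have hle : s ^ 2 ≤ (ℓ - s) ^ 2 := by nlinarith
    have e2 : 2 ≤ 2 / s ^ 2 * (ℓ - s) ^ 2 := by
      calc (2 : ℝ) = 2 / s ^ 2 * s ^ 2 := e1.symm
        _ ≤ 2 / s ^ 2 * (ℓ - s) ^ 2 := mul_le_mul_of_nonneg_left hle (by positivity)
    have e3 : Real.exp (-2) < 1 / 2 := by
      rw [Real.exp_neg, inv_eq_one_div]
      apply one_div_lt_one_div_of_lt (by norm_num)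
      have := Real.add_one_le_exp (2 : ℝ)
      linarith
    have e4 : Real.exp (-(2 / s ^ 2 * (ℓ - s) ^ 2)) ≤ Real.exp (-2) :=
      Real.exp_le_exp.2 (by linarith)
    unfold F
    rw [e1]
    have e5 : 0 < Real.exp (-(2 / s ^ 2 * ℓ ^ 2)) := Real.exp_pos _
    linarith
  have hc : ContinuousOn (F ℓ 1 s) (uIcc (ε / 2) (2 / s ^ 2)) := fun x _ =>
    (hasDeriv_F ℓ 1 s x).continuousAt.continuousWithinAt
  have h5 := intermediate_value_uIcc hc
  have h6 : (0 : ℝ) ∈ uIcc (F ℓ 1 s (ε / 2)) (F ℓ 1 s (2 / s ^ 2)) := by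
    rw [uIcc_of_le (by linarith)]
    exact ⟨h2.le, h4.le⟩
  obtain ⟨L, hL, hL0⟩ := h5 h6
  refine ⟨L, ?_, hL0⟩
  have : min (ε / 2) (2 / s ^ 2) ≤ L := hL.1
  have h7 : 0 < min (ε / 2) (2 / s ^ 2) := lt_min (by linarith) (by positivity)
  linarith

/-- `K u = ℓ sinh (a u) - 2 u cosh (a u)`, with a minus sign -/
noncomputable def K (ℓ a u : ℝ) : ℝ := 2 * u * Real.cosh (a * u) - ℓ * Real.sinh (a * u)

theorem K_neg {ℓ a : ℝ} (ha : 0 < a) {u w : ℝ} (hu : 0 < u) (huw : u ≤ w) (h : 0 < K ℓ a u) :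
    0 < K ℓ a w := by
  rcases huw.eq_or_lt with h0 | h0
  · rw [← h0]; exact h
  have hd : ∀ x, 0 ≤ x → HasDerivAt (K ℓ a)
      (2 * (a * x) * Real.sinh (a * x) - (a * ℓ - 2) * Real.cosh (a * x)) x := by
    intro x _
    have h1 : HasDerivAt (fun x : ℝ => a * x) a x := by
      simpa using (hasDerivAt_id x).const_mul a
    have h2 := h1.cosh
    have h3 := h1.sinh
    have h4 : HasDerivAt (fun x : ℝ => 2 * x) 2 x := by
      simpa using (hasDerivAt_id x).const_mul 2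
    have h5 := (h4.mul h2).sub (h3.const_mul ℓ)
    have e : 2 * (a * x) * Real.sinh (a * x) - (a * ℓ - 2) * Real.cosh (a * x) =
        (2 * Real.cosh (a * x) + 2 * x * (Real.sinh (a * x) * a)) -
          ℓ * (Real.cosh (a * x) * a) := by ring
    rw [e]
    exact h5
  have hP : ∀ x y : ℝ, 0 ≤ x → x < y →
      0 ≤ 2 * (a * x) * Real.sinh (a * x) - (a * ℓ - 2) * Real.cosh (a * x) →
      0 < 2 * (a * y) * Real.sinh (a * y) - (a * ℓ - 2) * Real.cosh (a * y) := by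
    intro x y hx hxy h1
    have c1 : 0 < Real.cosh (a * x) := Real.cosh_pos _
    have c2 : 0 < Real.cosh (a * y) := Real.cosh_pos _
    have c3 : 0 < Real.sinh (a * y) := Real.sinh_pos_iff.2 (by nlinarith)
    have c4 : 0 ≤ Real.sinh (a * y) * Real.cosh (a * x) - Real.cosh (a * y) * Real.sinh (a * x) := by
      rw [← Real.sinh_sub]
      exact Real.sinh_nonneg_iff.2 (by nlinarith)
    have c5 : 0 ≤ (2 * (a * x) * Real.sinh (a * x) - (a * ℓ - 2) * Real.cosh (a * x)) *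
        Real.cosh (a * y) := mul_nonneg h1 c2.le
    have c6 : 0 ≤ 2 * (a * x) * (Real.sinh (a * y) * Real.cosh (a * x) -
        Real.cosh (a * y) * Real.sinh (a * x)) := mul_nonneg (by positivity) c4
    have c7 : 0 < (2 * (a * (y - x))) * (Real.sinh (a * y) * Real.cosh (a * x)) :=
      mul_pos (by nlinarith) (mul_pos c3 c1)
    have c8 : 0 < (2 * (a * y) * Real.sinh (a * y) - (a * ℓ - 2) * Real.cosh (a * y)) *
        Real.cosh (a * x) := by nlinarith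
    exact pos_of_mul_pos_left c8 c1.le
  have hq := qc hd hP le_rfl hu h0
  have hK0 : K ℓ a 0 = 0 := by simp [K]
  rw [hK0] at hq
  rcases lt_max_iff.1 hq with h1 | h1
  · linarith
  · linarith

/-- `θ` in the variable `u = ℓ / 2 - τ` -/
noncomputable def G (ℓ L u : ℝ) : ℝ :=
  Real.exp (-(L * (ℓ / 2 - u) ^ 2)) + Real.exp (-(L * (ℓ / 2 + u) ^ 2))

theorem hasDeriv_G (ℓ L x : ℝ) : HasDerivAt (G ℓ L)
    (-(2 * L * Real.exp (-(L * (ℓ ^ 2 / 4 + x ^ 2)))) * K ℓ (L * ℓ) x) x := by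
  have h1 : HasDerivAt (fun u : ℝ => -(L * (ℓ / 2 - u) ^ 2)) (2 * L * (ℓ / 2 - x)) x := by
    exact (((((hasDerivAt_id' x).const_sub (ℓ / 2)).fun_pow 2).const_mul L).fun_neg).congr_deriv
      (by simp; ring)
  have h2 : HasDerivAt (fun u : ℝ => -(L * (ℓ / 2 + u) ^ 2)) (-(2 * L * (ℓ / 2 + x))) x := by
    exact (((((hasDerivAt_id' x).const_add (ℓ / 2)).fun_pow 2).const_mul L).fun_neg).congr_deriv
      (by simp; ring)
  refine (h1.exp.fun_add h2.exp).congr_deriv ?_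
  have e1 : Real.exp (-(L * (ℓ / 2 - x) ^ 2)) =
      Real.exp (-(L * (ℓ ^ 2 / 4 + x ^ 2))) * Real.exp (L * ℓ * x) := by
    rw [← Real.exp_add]; congr 1; ring
  have e2 : Real.exp (-(L * (ℓ / 2 + x) ^ 2)) =
      Real.exp (-(L * (ℓ ^ 2 / 4 + x ^ 2))) * Real.exp (-(L * ℓ * x)) := by
    rw [← Real.exp_add]; congr 1; ring
  rw [e1, e2]
  unfold K
  rw [Real.cosh_eq, Real.sinh_eq]
  ring

/-- the claim -/
theorem claim {ℓ s L t : ℝ} (hs : 0 < s) (hsl : s ≤ ℓ / 2) (hL : 0 < L)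
    (h0 : F ℓ 1 s L = 0) (hst : s ≤ t) (htl : t ≤ ℓ / 2) :
    Real.exp (-(L * t ^ 2)) + Real.exp (-(L * (ℓ - t) ^ 2)) ≤ 1 + Real.exp (-(L * ℓ ^ 2)) := by
  have hℓ : 0 < ℓ := by linarith
  have g1 : G ℓ L (ℓ / 2 - t) = Real.exp (-(L * t ^ 2)) + Real.exp (-(L * (ℓ - t) ^ 2)) := by
    unfold G
    congr 3 <;> ring
  have g2 : G ℓ L (ℓ / 2 - s) = 1 + Real.exp (-(L * ℓ ^ 2)) := by
    have : G ℓ L (ℓ / 2 - s) = Real.exp (-(L * s ^ 2)) + Real.exp (-(L * (ℓ - s) ^ 2)) := by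
      unfold G
      congr 3 <;> ring
    rw [this]
    unfold F at h0
    linarith
  have g3 : G ℓ L (ℓ / 2) = 1 + Real.exp (-(L * ℓ ^ 2)) := by
    unfold G
    have e1 : -(L * (ℓ / 2 - ℓ / 2) ^ 2) = 0 := by ring
    have e2 : -(L * (ℓ / 2 + ℓ / 2) ^ 2) = -(L * ℓ ^ 2) := by ring
    rw [e1, e2, Real.exp_zero]
  rw [← g1, ← g2]
  by_contra hcon
  have hcon := not_le.1 hcon
  have hlt : ℓ / 2 - t < ℓ / 2 - s := by
    rcases hst.eq_or_lt with h | h
    · rw [h] at hcon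
      exact absurd hcon (lt_irrefl _)
    · linarith
  obtain ⟨ξ, hξ, hd⟩ := exists_hasDerivAt_eq_slope (G ℓ L) _ hlt
    (fun x _ => (hasDeriv_G ℓ L x).continuousAt.continuousWithinAt)
    (fun x _ => hasDeriv_G ℓ L x)
  have hξ0 : 0 < ξ := by linarith [hξ.1]
  have hneg : -(2 * L * Real.exp (-(L * (ℓ ^ 2 / 4 + ξ ^ 2)))) * K ℓ (L * ℓ) ξ < 0 := by
    rw [hd]
    apply div_neg_of_neg_of_pos <;> linarith
  have hpos : 0 < K ℓ (L * ℓ) ξ := by
    have : 0 < 2 * L * Real.exp (-(L * (ℓ ^ 2 / 4 + ξ ^ 2))) := by positivity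
    by_contra hK
    have := mul_nonneg_of_nonpos_of_nonpos (a := -(2 * L * Real.exp (-(L * (ℓ ^ 2 / 4 + ξ ^ 2)))))
      (b := K ℓ (L * ℓ) ξ) (by linarith) (not_lt.1 hK)
    linarith
  have hanti : StrictAntiOn (G ℓ L) (Icc (ℓ / 2 - s) (ℓ / 2)) := by
    apply strictAntiOn_of_deriv_neg (convex_Icc _ _)
    · intro x _
      exact (hasDeriv_G ℓ L x).continuousAt.continuousWithinAt
    · intro x hx
      rw [interior_Icc] at hx
      rw [(hasDeriv_G ℓ L x).deriv]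
      have h1 : 0 < K ℓ (L * ℓ) x := K_neg (by positivity) hξ0 (by linarith [hξ.2, hx.1]) hpos
      have h2 : 0 < 2 * L * Real.exp (-(L * (ℓ ^ 2 / 4 + x ^ 2))) := by positivity
      nlinarith
  have h3 := hanti (left_mem_Icc.2 (by linarith)) (right_mem_Icc.2 (by linarith))
    (show ℓ / 2 - s < ℓ / 2 by linarith)
  rw [g2, g3] at h3
  exact lt_irrefl _ h3

/-- packet SCX -/
theorem scx : SCX := by
  intro ℓ s hℓ hs hsl
  obtain ⟨L, hL, h0⟩ := exists_L hs hsl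
  have hden : ∀ lam : ℝ, 0 < 1 + Real.exp (-(lam * ℓ ^ 2)) := fun lam => by positivity
  refine ⟨L, hL, ?_, ?_, ?_⟩
  · intro lam h1 h2
    have := (F_sign le_rfl hs hsl hL h0).1 lam h1 h2
    unfold F at this
    unfold RR
    rw [one_le_div (hden lam)]
    linarith
  · intro lam h1
    have := (F_sign le_rfl hs hsl hL h0).2 lam h1
    unfold F at this
    unfold RR
    rw [div_le_one (hden lam)]
    linarith
  · intro t hst htl
    have ht : 0 < t := by linarith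
    have hcl := claim hs hsl hL h0 hst htl
    have hN : 0 < Real.exp (-(L * t ^ 2)) + Real.exp (-(L * (ℓ - t) ^ 2)) := by positivity
    obtain ⟨c, hc⟩ : ∃ c, c = (1 + Real.exp (-(L * ℓ ^ 2))) /
      (Real.exp (-(L * t ^ 2)) + Real.exp (-(L * (ℓ - t) ^ 2))) := ⟨_, rfl⟩
    have hc1 : 1 ≤ c := by
      rw [hc, one_le_div hN]
      exact hcl
    have hc0 : 0 < c := by linarith
    have hF : F ℓ c t L = 0 := by
      unfold F
      rw [hc, div_mul_cancel₀ _ hN.ne']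
      ring
    have hRR : RR ℓ L t = 1 / c := by
      unfold RR
      rw [hc, one_div_div]
    obtain ⟨s1, s2⟩ := F_sign hc1 ht htl hL hF
    rw [hRR]
    constructor
    · intro lam h1 h2
      have := s1 lam h1 h2
      unfold F at this
      unfold RR
      rw [div_le_div_iff₀ hc0 (hden lam)]
      linarith
    · intro lam h1
      have := s2 lam h1
      unfold F at this
      unfold RR
      rw [div_le_div_iff₀ (hden lam) hc0]
      linarith

end Pool.Agent.Helper87.MM
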