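import Pool.Agent.Helper70.MM.Goals5

open MeasureTheory Set Metric
open scoped ENNReal RealInnerProductSpace Topology
open Pool.Agent.Results.MP_91ee6f_gt
open Pool.Agent.Helper70.MM

namespace Pool.Agent.Helper87.MM

/-- algebraic lower bound of the integrand -/
lemma alg (N a b d q o3 o4 : ℝ) (hN : 4 ≤ N) (ha : 0 < a) (hb : 0 < b) (hd : 0 < d)
    (hq0 : 0 ≤ q) (hq1 : q ≤ d ^ 2) (h3 : d ^ 2 * o3 = a + 3 * b)
    (h4 : d ^ 2 * o4 = b + 5 * o3) :
    b * (1 - q / d ^ 2) ^ 2 - 2 / 3 * a ≤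
      b - 2 * q / (N - 1) * o3 + q ^ 2 / ((N - 1) * (N + 1)) * o4 := by
  have hd2 : 0 < d ^ 2 := by positivity
  obtain ⟨κ, hκ⟩ : ∃ κ, κ = q / d ^ 2 := ⟨_, rfl⟩
  have hq : q = κ * d ^ 2 := by rw [hκ]; field_simp
  have hκ0 : 0 ≤ κ := by rw [hκ]; positivity
  have hκ1 : κ ≤ 1 := by rw [hκ]; exact (div_le_one hd2).2 hq1
  rw [← hκ]
  have e1 : 2 * q / (N - 1) * o3 = 2 * κ / (N - 1) * (a + 3 * b) := by
    rw [hq, ← h3]; ring
  have e2 : q ^ 2 / ((N - 1) * (N + 1)) * o4 =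
      κ ^ 2 / ((N - 1) * (N + 1)) * (d ^ 2 * b + 5 * (a + 3 * b)) := by
    rw [hq, ← h3]
    have : (κ * d ^ 2) ^ 2 / ((N - 1) * (N + 1)) * o4 =
      κ ^ 2 / ((N - 1) * (N + 1)) * (d ^ 2 * (d ^ 2 * o4)) := by ring
    rw [this, h4]; ring
  rw [e1, e2, ← sub_nonneg]
  have hN1 : 0 < N - 1 := by linarith
  have hN2 : 0 < N + 1 := by linarith
  have e3 : b - 2 * κ / (N - 1) * (a + 3 * b) +
      κ ^ 2 / ((N - 1) * (N + 1)) * (d ^ 2 * b + 5 * (a + 3 * b)) -
      (b * (1 - κ) ^ 2 - 2 / 3 * a) =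
      (b * (κ * ((N - 4) * (2 * (N + 1) - κ * (N + 4)))) +
        a * ((N + 1) * (2 / 3 * (N - 1) - 2 * κ) + 5 * κ ^ 2) + κ ^ 2 * (d ^ 2 * b)) /
        ((N - 1) * (N + 1)) := by
    field_simp
    ring
  rw [e3]
  have t1 : 0 ≤ N - 4 := by linarith
  have t2 : 0 ≤ 2 * (N + 1) - κ * (N + 4) := by nlinarith
  have t3 : 0 ≤ 2 / 3 * (N - 1) - 2 * κ := by linarith
  positivity

lemma om2_low {x τ : ℝ} (hx : 0 < τ) (h : τ ≤ 1 / 10) (hd : 0 < x) (hx2 : x ≤ 2 * τ) :
    1 / (10 * τ ^ 3) ≤ om 2 x := by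
  refine le_trans ?_ (om_le 2 hd hx2)
  rw [om_succ_succ, om_zero, om_one]
  have h1 : 1 - 2 * τ ≤ Real.exp (-(2 * τ)) := by
    have := Real.add_one_le_exp (-(2 * τ)); linarith
  have e : (Real.exp (-(2 * τ)) + (2 * ((0 : ℕ) : ℝ) + 1) * (Real.exp (-(2 * τ)) / (2 * τ))) /
      (2 * τ) ^ 2 = Real.exp (-(2 * τ)) * (1 + 2 * τ) / (8 * τ ^ 3) := by
    push_cast
    field_simp
    ring
  rw [e, div_le_div_iff₀ (by positivity) (by positivity)]
  have h2 : (1 - 2 * τ) * (1 + 2 * τ) ≤ Real.exp (-(2 * τ)) * (1 + 2 * τ) :=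
    mul_le_mul_of_nonneg_right h1 (by linarith)
  have h3 : 24 / 25 ≤ (1 - 2 * τ) * (1 + 2 * τ) := by nlinarith
  have h4 : 0 < τ ^ 3 := by positivity
  nlinarith [mul_le_mul_of_nonneg_right (h3.trans h2) h4.le]

theorem gpos (hINV : INV) : GPOS := by
  intro n hn
  obtain ⟨C, hC, hI⟩ := hINV n (by omega)
  have hN : (4 : ℝ) ≤ n := by exact_mod_cast hn
  obtain ⟨c5, hc5⟩ : ∃ c5 : ℝ, c5 = (1 / 5 : ℝ) ^ n := ⟨_, rfl⟩
  have hc50 : 0 < c5 := by rw [hc5]; positivity
  refine ⟨c5 / 40, by positivity, min (1 / 10) (Real.sqrt (c5 * (3 / 80) / C)),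
    lt_min (by norm_num) (Real.sqrt_pos.2 (by positivity)), ?_⟩
  intro e s r he hs hr hrs hrδ hsδ
  obtain ⟨τ, hτdef⟩ : ∃ τ, τ = max r s := ⟨_, rfl⟩
  rw [← hτdef]
  have hrτ : r ≤ τ := hτdef ▸ le_max_left _ _
  have hsτ : s ≤ τ := hτdef ▸ le_max_right _ _
  have hτ : 0 < τ := lt_of_lt_of_le hr hrτ
  have hτδ : τ ≤ min (1 / 10) (Real.sqrt (c5 * (3 / 80) / C)) := hτdef ▸ max_le hrδ hsδ
  have hτ1 : τ ≤ 1 / 10 := hτδ.trans (min_le_left _ _)
  have hτ2 : τ ^ 2 ≤ c5 * (3 / 80) / C := by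
    have := hτδ.trans (min_le_right _ _)
    exact (Real.le_sqrt hτ.le (by positivity)).1 this
  obtain ⟨hP, hae, -⟩ := fSPH1 n (by omega) s
  have hae := hae hs
  obtain ⟨hi1, hi2⟩ := hI e s r he hs hr.le (hτdef ▸ hτ)
  rw [← hτdef] at hi2
  obtain ⟨δ₀, hδ₀⟩ : ∃ δ₀, δ₀ = |r - s| := ⟨_, rfl⟩
  have hδ₀0 : 0 < δ₀ := by rw [hδ₀]; exact abs_pos.2 (sub_ne_zero.2 hrs)
  -- pointwise facts
  have hpt : ∀ y : En n, ‖y‖ = s → δ₀ ≤ dist (r • e) y ∧ dist (r • e) y ≤ r + s ∧ 0 ≤ rh e y ∧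
      rh e y ≤ s ^ 2 ∧ dist (r • e) y ^ 2 = (r - inner ℝ y e) ^ 2 + rh e y := by
    intro y hy
    have hre : ‖r • e‖ = r := by rw [norm_smul, he, mul_one, Real.norm_of_nonneg hr.le]
    refine ⟨?_, ?_, ?_, ?_, ?_⟩
    · rw [dist_eq_norm, hδ₀]
      have := abs_norm_sub_norm_le (r • e) y
      rwa [hre, hy] at this
    · rw [dist_eq_norm]
      have := norm_sub_le (r • e) y
      rwa [hre, hy] at this
    · unfold rh
      have := abs_real_inner_le_norm y e
      rw [he, mul_one] at this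
      have h2 := sq_abs (inner ℝ y e)
      have h3 : |inner ℝ y e| ^ 2 ≤ ‖y‖ ^ 2 := pow_le_pow_left₀ (abs_nonneg _) this 2
      linarith
    · unfold rh
      rw [hy]
      have := sq_nonneg (inner ℝ y e)
      linarith
    · rw [dist_eq_norm, @norm_sub_sq_real]
      unfold rh
      rw [hre, inner_smul_left, real_inner_comm]
      simp only [conj_trivial]
      ring
  have hmd : Measurable fun y : En n => dist (r • e) y := by fun_prop
  have hmr : Measurable fun y : En n => rh e y := by unfold rh; fun_prop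
  have hmo : ∀ j, Measurable fun y : En n => om j (dist (r • e) y) := fun j =>
    (om_measurable j).comp hmd
  -- integrability of the integrand
  have hint : Integrable (fun y => om 2 (dist (r • e) y) -
      2 * rh e y / ((n : ℝ) - 1) * om 3 (dist (r • e) y) +
      rh e y ^ 2 / (((n : ℝ) - 1) * ((n : ℝ) + 1)) * om 4 (dist (r • e) y)) (sphUnif n s) := by
    refine Integrable.of_bound (C := om 2 δ₀ + 2 * s ^ 2 / ((n : ℝ) - 1) * om 3 δ₀ +
      (s ^ 2) ^ 2 / (((n : ℝ) - 1) * ((n : ℝ) + 1)) * om 4 δ₀) ?_ ?_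
    · refine Measurable.aestronglyMeasurable ?_
      have h2 := hmo 2
      have h3 := hmo 3
      have h4 := hmo 4
      fun_prop
    · filter_upwards [hae] with y hy
      obtain ⟨p1, -, p3, p4, -⟩ := hpt y hy
      have hd0 : 0 < dist (r • e) y := lt_of_lt_of_le hδ₀0 p1
      have b2 := om_le 2 hδ₀0 p1
      have b3 := om_le 3 hδ₀0 p1
      have b4 := om_le 4 hδ₀0 p1
      have c2 := om_pos 2 hd0
      have c3 := om_pos 3 hd0
      have c4 := om_pos 4 hd0
      have hN1 : 0 < (n : ℝ) - 1 := by linarith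
      have hN2 : 0 < (n : ℝ) + 1 := by linarith
      have q1 : 2 * rh e y / ((n : ℝ) - 1) * om 3 (dist (r • e) y) ≤
          2 * s ^ 2 / ((n : ℝ) - 1) * om 3 δ₀ := by
        refine mul_le_mul ?_ b3 c3.le (by positivity)
        exact div_le_div_of_nonneg_right (by linarith) hN1.le
      have q2 : rh e y ^ 2 / (((n : ℝ) - 1) * ((n : ℝ) + 1)) * om 4 (dist (r • e) y) ≤
          (s ^ 2) ^ 2 / (((n : ℝ) - 1) * ((n : ℝ) + 1)) * om 4 δ₀ := by
        refine mul_le_mul ?_ b4 c4.le (by positivity)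
        exact div_le_div_of_nonneg_right (pow_le_pow_left₀ p3 p4 2) (by positivity)
      have q3 : 0 ≤ 2 * rh e y / ((n : ℝ) - 1) * om 3 (dist (r • e) y) := by positivity
      have q4 : 0 ≤ rh e y ^ 2 / (((n : ℝ) - 1) * ((n : ℝ) + 1)) * om 4 (dist (r • e) y) := by
        positivity
      have q5 : 0 ≤ (s ^ 2) ^ 2 / (((n : ℝ) - 1) * ((n : ℝ) + 1)) * om 4 δ₀ := by
        have := om_pos 4 hδ₀0
        positivity
      have q6 := om_pos 2 hδ₀0
      rw [Real.norm_eq_abs, abs_le]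
      constructor <;> linarith
  -- the cap
  obtain ⟨A, hA⟩ : ∃ A : Set (En n), A = closedBall (-(s • e)) (s / 2) := ⟨_, rfl⟩
  have hAm : MeasurableSet A := by rw [hA]; exact measurableSet_closedBall
  have hAmeas : c5 ≤ (sphUnif n s).real A := by
    have h1 := (fSPH2 n 1).2 s
    rw [mul_one] at h1
    have h2 : ENNReal.ofReal ((1 / 5 : ℝ) ^ n) ≤ sphUnif n s A := by
      rw [← h1, Measure.map_apply (by fun_prop) hAm]
      refine (fSPH4 n (by omega) (-e) (by rw [norm_neg, he])).trans (measure_mono ?_)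
      intro x hx
      rw [mem_preimage, hA, mem_closedBall, ← smul_neg, dist_smul₀, Real.norm_of_nonneg hs]
      rw [mem_closedBall] at hx
      nlinarith
    rw [Measure.real, hc5]
    exact (ENNReal.ofReal_le_iff_le_toReal (measure_ne_top _ _)).1 h2
  -- lower bound
  have hlow : ∀ᵐ y ∂(sphUnif n s), A.indicator (fun _ => 1 / (20 * τ ^ 3)) y -
      2 / 3 * (1 / dist (r • e) y) ≤ om 2 (dist (r • e) y) -
      2 * rh e y / ((n : ℝ) - 1) * om 3 (dist (r • e) y) +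
      rh e y ^ 2 / (((n : ℝ) - 1) * ((n : ℝ) + 1)) * om 4 (dist (r • e) y) := by
    filter_upwards [hae] with y hy
    obtain ⟨p1, p2, p3, p4, p5⟩ := hpt y hy
    have hd0 : 0 < dist (r • e) y := lt_of_lt_of_le hδ₀0 p1
    obtain ⟨d, hd⟩ : ∃ d, d = dist (r • e) y := ⟨_, rfl⟩
    rw [← hd] at p1 p2 p5 hd0 ⊢
    have c1 := om_pos 1 hd0
    have c2 := om_pos 2 hd0
    have r3 := om_rel 1 hd0
    have r4 := om_rel 2 hd0
    norm_num at r3 r4
    have hq1 : rh e y ≤ d ^ 2 := by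
      rw [p5]; have := sq_nonneg (r - inner ℝ y e); linarith
    have key := alg n (om 1 d) (om 2 d) d (rh e y) (om 3 d) (om 4 d) hN c1 c2 hd0 p3 hq1 r3 r4
    refine le_trans ?_ key
    have a1 : om 1 d ≤ 1 / d := by
      rw [om_one]
      exact div_le_div_of_nonneg_right (Real.exp_le_one_iff.2 (by linarith)) hd0.le
    have a2 : A.indicator (fun _ => 1 / (20 * τ ^ 3)) y ≤ om 2 d * (1 - rh e y / d ^ 2) ^ 2 := by
      by_cases hyA : y ∈ A
      · rw [indicator_of_mem hyA]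
        have i1 : inner ℝ y e ≤ -(7 / 8) * s := by
          rw [hA, mem_closedBall, dist_eq_norm, sub_neg_eq_add] at hyA
          rcases hs.eq_or_lt with h0 | h0
          · rw [← h0] at hy
            have : y = 0 := norm_eq_zero.1 hy
            rw [this, inner_zero_left, ← h0]; simp
          · have h1 : ‖y + s • e‖ ^ 2 ≤ (s / 2) ^ 2 := pow_le_pow_left₀ (norm_nonneg _) hyA 2
            rw [@norm_add_sq_real, hy, inner_smul_right, norm_smul, he, Real.norm_of_nonneg hs]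
              at h1
            have h2 : s * inner ℝ y e ≤ s * (-(7 / 8) * s) := by nlinarith
            exact le_of_mul_le_mul_left h2 h0
        have i2 : 1 / (10 * τ ^ 3) ≤ om 2 d := om2_low hτ hτ1 hd0 (by linarith)
        have i3 : 49 / 64 ≤ 1 - rh e y / d ^ 2 := by
          have hd2 : 0 < d ^ 2 := by positivity
          have e1 : 1 - rh e y / d ^ 2 = (r - inner ℝ y e) ^ 2 / d ^ 2 := by
            field_simp
            linarith
          rw [e1, le_div_iff₀ hd2]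
          have j1 : 7 / 8 * d ≤ r - inner ℝ y e := by linarith
          have j2 := pow_le_pow_left₀ (by positivity) j1 2
          linarith [j2, show (7 / 8 * d) ^ 2 = 49 / 64 * d ^ 2 by ring]
        have i4 : 1 / 2 ≤ (1 - rh e y / d ^ 2) ^ 2 := by
          have := pow_le_pow_left₀ (by norm_num) i3 2
          norm_num at this
          linarith
        calc 1 / (20 * τ ^ 3) = 1 / (10 * τ ^ 3) * (1 / 2) := by field_simp; norm_num
          _ ≤ om 2 d * (1 - rh e y / d ^ 2) ^ 2 := mul_le_mul i2 i4 (by norm_num) c2.le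
      · rw [indicator_of_notMem hyA]
        positivity
    linarith
  have hind : Integrable (A.indicator (fun _ => 1 / (20 * τ ^ 3))) (sphUnif n s) :=
    (integrable_const _).indicator hAm
  have hI2 := integral_mono_ae (hind.sub (hi1.const_mul (2 / 3))) hint hlow
  have hsplit : ∫ y, (A.indicator (fun _ => 1 / (20 * τ ^ 3)) y -
      2 / 3 * (1 / dist (r • e) y)) ∂(sphUnif n s) =
      (sphUnif n s).real A * (1 / (20 * τ ^ 3)) -
        2 / 3 * ∫ y, 1 / dist (r • e) y ∂(sphUnif n s) := by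
    rw [integral_sub hind (hi1.const_mul (2 / 3)), integral_const_mul, integral_indicator hAm,
      setIntegral_const, smul_eq_mul]
  have hfin : c5 / 40 / τ ^ 3 ≤ ∫ y, (A.indicator (fun _ => 1 / (20 * τ ^ 3)) y -
      2 / 3 * (1 / dist (r • e) y)) ∂(sphUnif n s) := by
    rw [hsplit]
    have k1 : c5 * (1 / (20 * τ ^ 3)) ≤ (sphUnif n s).real A * (1 / (20 * τ ^ 3)) :=
      mul_le_mul_of_nonneg_right hAmeas (by positivity)
    have k2 : 2 / 3 * (C / τ) ≤ c5 / 40 / τ ^ 3 := by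
      have hτ3 : 0 < τ ^ 3 := by positivity
      rw [le_div_iff₀ hτ3]
      have e1 : 2 / 3 * (C / τ) * τ ^ 3 = 2 / 3 * (C * τ ^ 2) := by field_simp
      rw [e1]
      rw [le_div_iff₀ hC] at hτ2
      linarith
    have e2 : c5 * (1 / (20 * τ ^ 3)) = c5 / 40 / τ ^ 3 + c5 / 40 / τ ^ 3 := by
      field_simp; norm_num
    linarith
  exact hfin.trans hI2

end Pool.Agent.Helper87.MM
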